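import Mathlib

/-!
The topology `τ` on the collapsed extended line is not a minimal US topology.
-/

set_option autoImplicit false

open Set Filter Topology MeasureTheory

namespace Pool.Agent.Results.MP_4e92f2_gt.NotMinimalUS

/-- The three points `-∞, 0, +∞` of the extended real line. -/
def A : Set EReal := {⊥, 0, ⊤}

/-- The equivalence relation on the extended real line which identifies the points of `A`. -/
def collapse : Setoid EReal where
  r x y := x = y ∨ (x ∈ A ∧ y ∈ A)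
  iseqv := by
    refine ⟨fun x => Or.inl rfl, ?_, ?_⟩
    · rintro x y (h | ⟨h1, h2⟩)
      · exact Or.inl h.symm
      · exact Or.inr ⟨h2, h1⟩
    · rintro x y z (rfl | ⟨h1, h2⟩) (rfl | ⟨h3, h4⟩)
      · exact Or.inl rfl
      · exact Or.inr ⟨h3, h4⟩
      · exact Or.inr ⟨h1, h2⟩
      · exact Or.inr ⟨h1, h4⟩

/-- The set `X₀`: the extended real line with the points of `A` identified to one point. -/
def X₀ : Type := Quotient collapse

/-- The projection onto `X₀`. -/
def q (x : EReal) : X₀ := Quotient.mk collapse x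

/-- The point of `X₀` which is the image of `A`. -/
noncomputable def star : X₀ := q 0

set_option warn.classDefReducibility false in
/-- The topology `τ` on `X₀`: `U` is open iff its preimage is open in the extended real line and,
in case `star ∈ U`, the preimage is moreover dense. -/
def τ : TopologicalSpace X₀ where
  IsOpen U := IsOpen (q ⁻¹' U) ∧ (star ∈ U → Dense (q ⁻¹' U))
  isOpen_univ := ⟨isOpen_univ, fun _ => dense_univ⟩
  isOpen_inter := by
    rintro U V ⟨hU, hU'⟩ ⟨hV, hV'⟩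
    exact ⟨hU.inter hV, fun h => (hU' h.1).inter_of_isOpen_left (hV' h.2) hU⟩
  isOpen_sUnion := by
    intro S hS
    refine ⟨?_, ?_⟩
    · rw [preimage_sUnion]
      exact isOpen_biUnion fun U hU => (hS U hU).1
    · rintro ⟨U, hU, hs⟩
      exact ((hS U hU).2 hs).mono (preimage_mono (subset_sUnion_of_mem hU))

/-- A topology is US if every convergent sequence has exactly one limit. -/
def US {X : Type} (σ : TopologicalSpace X) : Prop :=
  ∀ (s : ℕ → X) (a b : X), Tendsto s atTop (@nhds X σ a) → Tendsto s atTop (@nhds X σ b) → a = b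

set_option warn.classDefReducibility false in
/-- The topology `σ` on `X₀`: `U` is open iff its preimage is open and, in case `star ∈ U`, the
preimage has countable complement. -/
def σ : TopologicalSpace X₀ where
  IsOpen U := IsOpen (q ⁻¹' U) ∧ (star ∈ U → (q ⁻¹' U)ᶜ.Countable)
  isOpen_univ := ⟨isOpen_univ, fun _ => by simp⟩
  isOpen_inter := by
    rintro U V ⟨hU, hU'⟩ ⟨hV, hV'⟩
    refine ⟨hU.inter hV, fun h => ?_⟩
    rw [preimage_inter, compl_inter]
    exact (hU' h.1).union (hV' h.2)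
  isOpen_sUnion := by
    intro S hS
    refine ⟨?_, ?_⟩
    · rw [preimage_sUnion]
      exact isOpen_biUnion fun U hU => (hS U hU).1
    · rintro ⟨U, hU, hs⟩
      exact ((hS U hU).2 hs).mono
        (compl_subset_compl.2 (preimage_mono (subset_sUnion_of_mem hU)))

lemma q_eq {x y : EReal} : q x = q y ↔ x = y ∨ (x ∈ A ∧ y ∈ A) := by
  exact (Quotient.eq (r := collapse) (x := x) (y := y))

lemma q_surj (a : X₀) : ∃ x, q x = a := Quotient.exists_rep a

lemma zero_mem : (0 : EReal) ∈ A := by simp [A]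

lemma q_eq_star {x : EReal} : q x = star ↔ x ∈ A := by
  unfold star
  rw [q_eq]
  constructor
  · rintro (rfl | h)
    · exact zero_mem
    · exact h.1
  · intro h
    exact Or.inr ⟨h, zero_mem⟩

lemma q_inj {x y : EReal} (hx : x ∉ A) (h : q x = q y) : x = y := by
  rcases q_eq.1 h with h | h
  · exact h
  · exact absurd h.1 hx

lemma isClosed_A : IsClosed A := by
  unfold A
  exact (Set.toFinite _).isClosed

/-- preimage of the image for sets missing `A` -/
lemma preimage_image {C : Set EReal} (hC : ∀ x ∈ C, x ∉ A) : q ⁻¹' (q '' C) = C := by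
  ext x
  constructor
  · rintro ⟨y, hy, hyx⟩
    exact (q_inj (hC y hy) hyx) ▸ hy
  · intro hx
    exact ⟨x, hx, rfl⟩

lemma open_image {U : Set EReal} (hU : IsOpen U) (hUA : ∀ x ∈ U, x ∉ A) :
    @IsOpen X₀ σ (q '' U) := by
  refine ⟨?_, ?_⟩
  · rw [preimage_image hUA]; exact hU
  · rintro ⟨x, hx, hxs⟩
    exact absurd (q_eq_star.1 hxs) (hUA x hx)

lemma dense_of_countable_compl {U : Set EReal} (hU : Uᶜ.Countable) : Dense U := by
  rw [dense_iff_inter_open]
  intro O hO hne
  obtain ⟨a, b, hab, hsub⟩ := hO.exists_Ioo_subset hne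
  obtain ⟨r, har, hrb⟩ := EReal.lt_iff_exists_real_btwn.1 hab
  obtain ⟨s, hrs, hsb⟩ := EReal.lt_iff_exists_real_btwn.1 hrb
  have hrs' : r < s := EReal.coe_lt_coe_iff.1 hrs
  have h1 : ((fun x : ℝ => (x : EReal)) ⁻¹' Uᶜ).Countable :=
    hU.preimage EReal.coe_injective
  have h2 := h1.dense_compl ℝ
  obtain ⟨z, hz, hz2⟩ := (dense_iff_inter_open.1 h2) (Ioo r s) isOpen_Ioo (nonempty_Ioo.2 hrs')
  refine ⟨(z : EReal), hsub ⟨?_, ?_⟩, ?_⟩
  · exact har.trans (EReal.coe_lt_coe_iff.2 hz.1)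
  · exact (EReal.coe_lt_coe_iff.2 hz.2).trans hsb
  · by_contra h
    exact hz2 h

lemma σ_coarser (U : Set X₀) (hU : @IsOpen X₀ σ U) : @IsOpen X₀ τ U :=
  ⟨hU.1, fun h => dense_of_countable_compl (hU.2 h)⟩

/-- a compact uncountable subset of `[1,2]` with dense complement -/
lemma exists_fat : ∃ C : Set ℝ, IsCompact C ∧ C ⊆ Icc 1 2 ∧ ¬ C.Countable ∧ Dense Cᶜ := by
  have h0 : volume (range ((↑) : ℚ → ℝ)) = 0 := (countable_range _).measure_zero _
  obtain ⟨U, hUQ, hUo, hUv⟩ := (range ((↑) : ℚ → ℝ)).exists_isOpen_lt_of_lt (μ := volume) 1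
    (by rw [h0]; exact one_pos)
  refine ⟨Icc 1 2 \ U, isCompact_Icc.diff hUo, sdiff_subset, ?_, ?_⟩
  · intro hc
    have h1 : volume (Icc (1 : ℝ) 2 \ U) = 0 := hc.measure_zero _
    have h2 : volume (Icc (1 : ℝ) 2) ≤ volume (Icc (1 : ℝ) 2 \ U) + volume U := by
      refine le_trans (measure_mono ?_) (measure_union_le _ _)
      intro x hx
      by_cases hxU : x ∈ U
      · exact Or.inr hxU
      · exact Or.inl ⟨hx, hxU⟩
    rw [h1, Real.volume_Icc, zero_add] at h2
    norm_num at h2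
    exact absurd hUv (not_lt.2 h2)
  · refine Dense.mono ?_ Rat.isDenseEmbedding_coe_real.dense
    rintro _ ⟨r, rfl⟩
    rintro ⟨_, h⟩
    exact h (hUQ ⟨r, rfl⟩)

lemma dense_compl_image {C : Set ℝ} (hC : Dense Cᶜ) :
    Dense (((fun x : ℝ => (x : EReal)) '' C)ᶜ) := by
  rw [dense_iff_inter_open]
  intro O hO hne
  obtain ⟨a, b, hab, hsub⟩ := hO.exists_Ioo_subset hne
  obtain ⟨r, har, hrb⟩ := EReal.lt_iff_exists_real_btwn.1 hab
  obtain ⟨s, hrs, hsb⟩ := EReal.lt_iff_exists_real_btwn.1 hrb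
  have hrs' : r < s := EReal.coe_lt_coe_iff.1 hrs
  obtain ⟨z, hz, hz2⟩ := (dense_iff_inter_open.1 hC) (Ioo r s) isOpen_Ioo (nonempty_Ioo.2 hrs')
  refine ⟨(z : EReal), hsub ⟨?_, ?_⟩, ?_⟩
  · exact har.trans (EReal.coe_lt_coe_iff.2 hz.1)
  · exact (EReal.coe_lt_coe_iff.2 hz.2).trans hsb
  · rintro ⟨w, hw, hwz⟩
    exact hz2 (EReal.coe_injective hwz ▸ hw)

lemma exists_τ_not_σ : ∃ U : Set X₀, @IsOpen X₀ τ U ∧ ¬ @IsOpen X₀ σ U := by
  obtain ⟨C, hCc, hCs, hCu, hCd⟩ := exists_fat
  set D : Set EReal := (fun x : ℝ => (x : EReal)) '' C with hD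
  have hDc : IsCompact D := hCc.image continuous_coe_real_ereal
  have hDA : ∀ x ∈ D, x ∉ A := by
    rintro _ ⟨x, hx, rfl⟩ h
    have h1 := (hCs hx).1
    rcases h with h | h | h
    · exact EReal.coe_ne_bot _ h
    · have : x = 0 := by
        have h' : (x : EReal) = ((0 : ℝ) : EReal) := h
        exact EReal.coe_injective h'
      linarith
    · exact EReal.coe_ne_top _ h
  refine ⟨(q '' D)ᶜ, ⟨?_, fun _ => ?_⟩, ?_⟩
  · rw [preimage_compl, preimage_image hDA]
    exact hDc.isClosed.isOpen_compl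
  · rw [preimage_compl, preimage_image hDA]
    exact dense_compl_image hCd
  · rintro ⟨_, h2⟩
    have hs : star ∈ (q '' D)ᶜ := by
      rintro ⟨x, hx, hxs⟩
      exact hDA x hx (q_eq_star.1 hxs)
    have h3 := h2 hs
    rw [preimage_compl, compl_compl, preimage_image hDA] at h3
    apply hCu
    have := h3.preimage EReal.coe_injective
    rw [hD, preimage_image_eq _ EReal.coe_injective] at this
    exact this

lemma σ_T1 : @T1Space X₀ σ := by
  let _ := σ
  refine ⟨fun a => ?_⟩
  rw [← isOpen_compl_iff]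
  obtain ⟨x, rfl⟩ := q_surj a
  by_cases hx : x ∈ A
  · have h1 : q ⁻¹' {q x}ᶜ = Aᶜ := by
      ext y
      simp only [mem_preimage, mem_compl_iff, mem_singleton_iff]
      rw [q_eq_star.2 hx, q_eq_star]
    refine ⟨by rw [h1]; exact isClosed_A.isOpen_compl, fun hs => absurd hs ?_⟩
    rw [q_eq_star.2 hx]
    simp
  · have h1 : q ⁻¹' {q x}ᶜ = {x}ᶜ := by
      ext y
      simp only [mem_preimage, mem_compl_iff, mem_singleton_iff]
      refine not_congr ⟨fun h => (q_inj hx h.symm).symm, fun h => by rw [h]⟩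
    refine ⟨by rw [h1]; exact isClosed_singleton.isOpen_compl, fun _ => ?_⟩
    rw [h1, compl_compl]
    exact countable_singleton x

/-- If a sequence converges to `q x` with `x ∉ A`, then it is eventually outside `A` and its lifts
converge to `x`. -/
lemma lift_tendsto {s : ℕ → X₀} {x : EReal} (hx : x ∉ A)
    (h : Tendsto s atTop (@nhds X₀ σ (q x))) (t : ℕ → EReal) (ht : ∀ n, q (t n) = s n) :
    Tendsto t atTop (𝓝 x) := by
  let _ := σ
  rw [tendsto_nhds]
  intro O hO hxO
  have h1 : IsOpen (q '' (O \ A)) :=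
    open_image (hO.sdiff isClosed_A) fun y hy => hy.2
  have h2 := (tendsto_nhds.1 h) _ h1 ⟨x, ⟨hxO, hx⟩, rfl⟩
  refine mem_of_superset h2 ?_
  intro n hn
  obtain ⟨y, hy, hyn⟩ := hn
  have : y = t n := q_inj hy.2 (by rw [hyn, ht n])
  show t n ∈ O
  rw [← this]
  exact hy.1

lemma σ_aux {s : ℕ → X₀} {x : EReal} (hx : x ∉ A)
    (h : Tendsto s atTop (@nhds X₀ σ (q x))) (h' : Tendsto s atTop (@nhds X₀ σ star)) : False := by
  let _ := σ
  choose t ht using fun n => q_surj (s n)
  have h1 : Tendsto t atTop (𝓝 x) := lift_tendsto hx h t ht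
  -- eventually t n ∉ A
  have h2 : ∀ᶠ n in atTop, t n ∉ A := h1.eventually (isClosed_A.isOpen_compl.mem_nhds hx)
  obtain ⟨N, hN⟩ := eventually_atTop.1 h2
  have h3 : Tendsto (fun n => t (n + N)) atTop (𝓝 x) := (tendsto_add_atTop_iff_nat N).2 h1
  have hK : IsCompact (insert x (range fun n => t (n + N))) := h3.isCompact_insert_range
  set K := insert x (range fun n => t (n + N)) with hKd
  have hKA : ∀ y ∈ K, y ∉ A := by
    rintro y (rfl | ⟨n, rfl⟩)
    · exact hx
    · exact hN _ (Nat.le_add_left _ _)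
  have hKc : K.Countable := (countable_range _).insert _
  have hO : IsOpen (q '' K)ᶜ := by
    refine ⟨?_, fun _ => ?_⟩
    · rw [preimage_compl, preimage_image hKA]
      exact hK.isClosed.isOpen_compl
    · rw [preimage_compl, compl_compl, preimage_image hKA]
      exact hKc
  have hs : star ∈ (q '' K)ᶜ := by
    rintro ⟨y, hy, hys⟩
    exact hKA y hy (q_eq_star.1 hys)
  obtain ⟨M, hM⟩ := eventually_atTop.1 ((tendsto_nhds.1 h') _ hO hs)
  have := hM (M + N) (Nat.le_add_right _ _)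
  apply this
  exact ⟨t (M + N), Or.inr ⟨M, rfl⟩, ht _⟩

lemma σ_US : US σ := by
  intro s a b ha hb
  obtain ⟨x, rfl⟩ := q_surj a
  obtain ⟨y, rfl⟩ := q_surj b
  by_cases hx : x ∈ A
  · by_cases hy : y ∈ A
    · exact q_eq.2 (Or.inr ⟨hx, hy⟩)
    · rw [q_eq_star.2 hx] at ha
      exact (σ_aux hy hb ha).elim
  · by_cases hy : y ∈ A
    · rw [q_eq_star.2 hy] at hb
      exact (σ_aux hx ha hb).elim
    · choose t ht using fun n => q_surj (s n)
      rw [tendsto_nhds_unique (lift_tendsto hx ha t ht) (lift_tendsto hy hb t ht)]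

/-- **`τ` is not a minimal US topology.**  There is a `T₁` topology on `X₀`, strictly coarser than
`τ`, which is US. -/
theorem result : ∃ τ' : TopologicalSpace X₀,
    @T1Space X₀ τ' ∧ US τ' ∧ (∀ U : Set X₀, @IsOpen X₀ τ' U → @IsOpen X₀ τ U) ∧ τ' ≠ τ := by
  refine ⟨σ, σ_T1, σ_US, σ_coarser, ?_⟩
  intro h
  obtain ⟨U, hU, hU'⟩ := exists_τ_not_σ
  exact hU' (h ▸ hU)

end Pool.Agent.Results.MP_4e92f2_gt.NotMinimalUS
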